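import Pool.Agent.U762.SH.SmallB

/-! Intervals longer than a power of the logarithm, and both ranges together. -/

set_option autoImplicit false

namespace Pool.Agent.U762.SH

open Finset Filter Topology
open Pool.Agent.R516 (pcn Hi St_U)

open Classical in
/-- the exceptional integers for the long intervals -/
noncomputable def badL (δ : ℝ) (B X : ℕ) : Finset ℕ :=
  (Icc 1 X).filter (fun n => n + 1 ∈ Hi (2 * X) ((Real.log X) ^ B / 2)
    ((18 / 5 + δ) / Real.log (2 * X : ℕ)))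

lemma ev_pow_log_rpow (B : ℕ) {κ : ℝ} (hκ : 0 < κ) :
    ∀ᶠ X : ℕ in atTop, (Real.log X) ^ B ≤ (X : ℝ) ^ κ := by
  have h1 := (isLittleO_log_rpow_rpow_atTop (B : ℝ) hκ).bound (show (0 : ℝ) < 1 by norm_num)
  have h2 := (tendsto_natCast_atTop_atTop (R := ℝ)).eventually h1
  filter_upwards [h2, eventually_ge_atTop 1] with X hX hX1
  have h3 : 0 ≤ Real.log X := Real.log_natCast_nonneg X
  rw [Real.norm_of_nonneg (by positivity), Real.norm_of_nonneg (by positivity), one_mul,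
    Real.rpow_natCast] at hX
  exact hX

theorem badL_card (hU : St_U) (δ : ℝ) (hδ : 0 < δ) (A : ℕ) : ∀ᶠ X : ℕ in atTop,
    ((badL δ (A + 21) X).card : ℝ) ≤ X / (Real.log X) ^ A := by
  classical
  obtain ⟨κ, hκ, N₀, h⟩ := hU δ hδ
  filter_upwards [ev_pow_log_rpow (A + 21) hκ, eventually_ge_atTop N₀, eventually_ge_atTop 2,
    tendsto_log_nat.eventually_ge_atTop (4 * 2 ^ 20)] with X h1 hN hX2 hL
  obtain ⟨L, hLd⟩ : ∃ L : ℝ, L = Real.log X := ⟨_, rfl⟩
  rw [← hLd] at h1 hL ⊢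
  have hL1 : 1 ≤ L := by
    have : (1 : ℝ) ≤ 4 * 2 ^ 20 := by norm_num
    linarith
  have hL0 : 0 < L := by linarith
  have hXr : (2 : ℝ) ≤ X := by exact_mod_cast hX2
  have hH1 : 1 ≤ L ^ (A + 21) / 2 := by
    rw [le_div_iff₀ (by norm_num)]
    calc (1 : ℝ) * 2 ≤ L ^ 1 := by
          rw [pow_one]
          have : (2 : ℝ) ≤ 4 * 2 ^ 20 := by norm_num
          linarith
      _ ≤ L ^ (A + 21) := pow_le_pow_right₀ hL1 (by omega)
  have hH2 : L ^ (A + 21) / 2 ≤ ((2 * X : ℕ) : ℝ) ^ κ := by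
    have h2 : (X : ℝ) ^ κ ≤ ((2 * X : ℕ) : ℝ) ^ κ := by
      apply Real.rpow_le_rpow (by linarith) _ hκ.le
      push_cast; linarith
    have h3 : L ^ (A + 21) / 2 ≤ L ^ (A + 21) := by
      have : 0 < L ^ (A + 21) := by positivity
      linarith
    linarith
  have h2 := h (2 * X) (by omega) (L ^ (A + 21) / 2) hH1 hH2
  have h3 : ((badL δ (A + 21) X).card : ℝ) ≤ (((Icc 1 (2 * X)).filter (fun n => n ∈
      Hi (2 * X) (L ^ (A + 21) / 2) ((18 / 5 + δ) / Real.log (2 * X : ℕ)))).card : ℝ) := by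
    have : (badL δ (A + 21) X).card ≤ ((Icc 1 (2 * X)).filter (fun n => n ∈
      Hi (2 * X) (L ^ (A + 21) / 2) ((18 / 5 + δ) / Real.log (2 * X : ℕ)))).card := by
      apply card_le_card_of_injOn (fun n => n + 1)
      · intro n hn
        rw [mem_coe] at hn
        unfold badL at hn
        rw [mem_filter, mem_Icc] at hn
        rw [mem_coe, mem_filter, mem_Icc]
        refine ⟨⟨by simp only; omega, by simp only; omega⟩, ?_⟩
        rw [hLd]
        exact hn.2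
      · intro a _ b _ hab
        simp only at hab
        omega
    exact_mod_cast this
  have hl2 : Real.log (2 * X : ℕ) ≤ 2 * L := by
    rw [hLd]
    push_cast
    rw [Real.log_mul (by norm_num) (by positivity)]
    have := Real.log_le_log (by norm_num) hXr
    linarith
  have hl20 : 0 ≤ Real.log (2 * X : ℕ) := Real.log_natCast_nonneg _
  calc ((badL δ (A + 21) X).card : ℝ) ≤ _ := h3
    _ ≤ ((2 * X : ℕ) : ℝ) * (Real.log (2 * X : ℕ)) ^ 20 / (L ^ (A + 21) / 2) := h2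
    _ ≤ ((2 * X : ℕ) : ℝ) * (2 * L) ^ 20 / (L ^ (A + 21) / 2) := by gcongr
    _ = (4 * 2 ^ 20) * (X / L ^ (A + 1)) := by
        have e : L ^ (A + 21) = L ^ (A + 1) * L ^ 20 := by rw [← pow_add]
        rw [e, mul_pow]
        push_cast
        field_simp
        norm_num
    _ ≤ L * (X / L ^ (A + 1)) := by
        apply mul_le_mul_of_nonneg_right hL
        positivity
    _ = X / L ^ A := by
        rw [pow_succ]
        field_simp

lemma pnt_lower {d : ℝ} (hd : 0 < d) : ∃ Y : ℝ, 2 ≤ Y ∧ ∀ y : ℝ, Y ≤ y →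
    (1 - d) * y / Real.log y ≤ Nat.primeCounting ⌊y⌋₊ := by
  have h1 := Pool.Agent.Helper923.PNT.pi_tendsto.eventually
    (eventually_ge_nhds (by linarith : (1 : ℝ) - d < 1))
  obtain ⟨Y, hY⟩ := (h1.and (eventually_ge_atTop 2)).exists_forall_of_atTop
  refine ⟨max Y 2, le_max_right _ _, fun y hy => ?_⟩
  obtain ⟨a1, a2⟩ := hY y ((le_max_left _ _).trans hy)
  have hl : 0 < Real.log y := Real.log_pos (by linarith)
  rw [div_le_iff₀ hl]
  rwa [le_div_iff₀ (by linarith)] at a1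

/-- the meaning of the exceptional set -/
theorem badL_spec (ε δ : ℝ) (hε : 0 < ε) (hε1 : ε ≤ 1) (hδ : 0 < δ) (hδ1 : δ ≤ 1 / 2) (B : ℕ)
    (hB : 1 ≤ B) :
    ∀ᶠ X : ℕ in atTop, ∀ n : ℕ, 1 ≤ n → n ≤ X → n ∉ badL δ B X → ∀ y : ℝ, (Real.log X) ^ B ≤ y →
      y ≤ ((n : ℝ) + 1) ^ (5 * ε / 18 - δ) →
      (pcn n (⌊(n : ℝ) + y⌋₊ + 1) : ℝ) ≤ ε * Nat.primeCounting ⌊y⌋₊ := by
  classical
  obtain ⟨Y, hY2, hY⟩ := pnt_lower hδ
  filter_upwards [tendsto_log_nat.eventually_ge_atTop Y,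
    tendsto_log_nat.eventually_ge_atTop (2 / δ), eventually_ge_atTop 2] with X hLY hLδ hX2
  intro n hn1 hnX hn y hy1 hy2
  obtain ⟨L, hLd⟩ : ∃ L : ℝ, L = Real.log X := ⟨_, rfl⟩
  rw [← hLd] at hLY hy1 hLδ
  have hXr : (2 : ℝ) ≤ X := by exact_mod_cast hX2
  have hL2 : 2 ≤ L := hY2.trans hLY
  have hLB : L ≤ L ^ B := by
    calc L = L ^ 1 := (pow_one L).symm
      _ ≤ L ^ B := pow_le_pow_right₀ (by linarith) hB
  have hyY : Y ≤ y := by linarith
  have hyδ : 2 / δ ≤ y := by linarith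
  have hy0 : 2 ≤ y := by linarith
  have hn1r : (1 : ℝ) ≤ n := by exact_mod_cast hn1
  have hnXr : (n : ℝ) ≤ X := by exact_mod_cast hnX
  obtain ⟨θ, hθ⟩ : ∃ θ : ℝ, θ = 5 * ε / 18 - δ := ⟨_, rfl⟩
  rw [← hθ] at hy2
  have hlogy : Real.log y ≤ θ * Real.log ((n : ℝ) + 1) := by
    have h1 := Real.log_le_log (by linarith) hy2
    rwa [Real.log_rpow (by linarith)] at h1
  have hlogy0 : 0 < Real.log y := Real.log_pos (by linarith)
  have hlogn : 0 ≤ Real.log ((n : ℝ) + 1) := Real.log_nonneg (by linarith)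
  have hθ0 : 0 < θ := by
    by_contra hc
    rw [not_lt] at hc
    have : θ * Real.log ((n : ℝ) + 1) ≤ 0 := mul_nonpos_of_nonpos_of_nonneg hc hlogn
    linarith
  have hθ1 : θ ≤ 5 / 18 := by rw [hθ]; linarith
  obtain ⟨Λ, hΛ⟩ : ∃ Λ : ℝ, Λ = Real.log (2 * X : ℕ) := ⟨_, rfl⟩
  have hΛn : Real.log ((n : ℝ) + 1) ≤ Λ := by
    rw [hΛ]
    apply Real.log_le_log (by linarith)
    push_cast; linarith
  have hΛ0 : 0 < Λ := by
    rw [hΛ]
    apply Real.log_pos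
    push_cast; linarith
  have hyn : y + 1 ≤ n := by
    have h0 : y ≤ ((n : ℝ) + 1) ^ (5 / 18 : ℝ) :=
      hy2.trans (Real.rpow_le_rpow_of_exponent_le (by linarith) hθ1)
    have h1 : ((n : ℝ) + 1) ^ (5 / 18 : ℝ) ≤ ((n : ℝ) + 1) ^ (1 / 2 : ℝ) :=
      Real.rpow_le_rpow_of_exponent_le (by linarith) (by norm_num)
    rw [← Real.sqrt_eq_rpow] at h1
    have h2 : y * y ≤ (n : ℝ) + 1 := by
      calc y * y ≤ Real.sqrt ((n : ℝ) + 1) * Real.sqrt ((n : ℝ) + 1) := by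
            apply mul_self_le_mul_self (by linarith)
            linarith
        _ = (n : ℝ) + 1 := Real.mul_self_sqrt (by linarith)
    have h3 : 0 ≤ (y - 2) * (y + 1) := mul_nonneg (by linarith) (by linarith)
    have h4 : (y - 2) * (y + 1) = y * y - y - 2 := by ring
    linarith
  have hfl : ⌊(n : ℝ) + y⌋₊ + 1 = n + (⌊y⌋₊ + 1) := by
    have e : (n : ℝ) + y = y + (n : ℕ) := by ring
    rw [e, Nat.floor_add_natCast (by linarith)]
    ring
  have hfy : (⌊y⌋₊ : ℝ) ≤ y := Nat.floor_le (by linarith)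
  have hfy2 : y - 1 < (⌊y⌋₊ : ℝ) := Nat.sub_one_lt_floor y
  rw [hfl]
  -- the sieve bound
  have h1 : (pcn n (n + (⌊y⌋₊ + 1)) : ℝ) ≤ (18 / 5 + δ) / Λ * (⌊y⌋₊ + 1) := by
    by_contra hc
    rw [not_le] at hc
    apply hn
    unfold badL
    rw [mem_filter, mem_Icc]
    refine ⟨⟨hn1, hnX⟩, ?_⟩
    unfold Hi
    refine ⟨n, n + (⌊y⌋₊ + 1), by omega, by omega, ?_, ?_, ?_⟩
    · have h2 : ⌊y⌋₊ + 1 ≤ n := by
        have : ((⌊y⌋₊ : ℕ) : ℝ) + 1 ≤ n := by linarith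
        exact_mod_cast this
      omega
    · push_cast
      rw [← hLd]
      have h2 : L ^ B ≤ y := hy1
      linarith
    · push_cast
      rw [hΛ] at hc
      push_cast at hc
      have e : (n : ℝ) + (⌊y⌋₊ + 1) - n = ⌊y⌋₊ + 1 := by ring
      rw [e]
      exact hc
  -- comparison with the primes below `y`
  have h2 := hY y hyY
  have h3 : (18 / 5 + δ) / Λ * (⌊y⌋₊ + 1) ≤ (18 / 5 + δ) * θ * (y + 1) / Real.log y := by
    rw [div_mul_eq_mul_div, div_le_div_iff₀ hΛ0 hlogy0]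
    have h4 : Real.log y ≤ θ * Λ := hlogy.trans (mul_le_mul_of_nonneg_left hΛn hθ0.le)
    calc (18 / 5 + δ) * ((⌊y⌋₊ : ℝ) + 1) * Real.log y ≤ (18 / 5 + δ) * (y + 1) * (θ * Λ) := by
          gcongr
      _ = (18 / 5 + δ) * θ * (y + 1) * Λ := by ring
  have h4 : (18 / 5 + δ) * θ * (y + 1) ≤ ε * (1 - δ) * y := by
    have h5 : (18 / 5 + δ) * θ = 18 / 5 * θ + δ * θ := by ring
    have h6 : 18 / 5 * θ = ε - 18 / 5 * δ := by rw [hθ]; ring
    have h7 : δ * θ ≤ δ * (5 / 18) := mul_le_mul_of_nonneg_left hθ1 hδ.le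
    have h8 : ε * δ ≤ 1 * δ := mul_le_mul_of_nonneg_right hε1 hδ.le
    have h9 : (18 / 5 + δ) * θ ≤ ε * (1 - δ) - 2 * δ := by linarith
    have h10 : (18 / 5 + δ) * θ ≤ 2 := by linarith
    have h11 : 2 ≤ δ * y := by
      rw [div_le_iff₀ hδ] at hyδ
      linarith
    calc (18 / 5 + δ) * θ * (y + 1) = (18 / 5 + δ) * θ * y + (18 / 5 + δ) * θ := by ring
      _ ≤ (ε * (1 - δ) - 2 * δ) * y + 2 := by
          apply add_le_add _ h10
          exact mul_le_mul_of_nonneg_right h9 (by linarith)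
      _ ≤ ε * (1 - δ) * y := by
          have e : (ε * (1 - δ) - 2 * δ) * y = ε * (1 - δ) * y - 2 * (δ * y) := by ring
          rw [e]
          linarith
  calc (pcn n (n + (⌊y⌋₊ + 1)) : ℝ) ≤ (18 / 5 + δ) / Λ * (⌊y⌋₊ + 1) := h1
    _ ≤ (18 / 5 + δ) * θ * (y + 1) / Real.log y := h3
    _ ≤ ε * (1 - δ) * y / Real.log y := by gcongr
    _ = ε * ((1 - δ) * y / Real.log y) := by ring
    _ ≤ ε * Nat.primeCounting ⌊y⌋₊ := mul_le_mul_of_nonneg_left h2 hε.le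

end Pool.Agent.U762.SH
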