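import Pool.Agent.U762.SH.Hl
import Pool.Agent.U762.GP.Seq

/-! From exceptional sets of integers to almost all geometric progressions. -/

set_option autoImplicit false

namespace Pool.Agent.U762.SH

open MeasureTheory Filter Topology Set
open Pool.Agent.U762.GP (scale_thin ae_exp)

open Classical in
/-- a thin set of integers is thin on the logarithmic scale -/
theorem thin_vol {P : ℕ → Prop} {A : ℕ} {C0 : ℝ} (hC0 : 0 ≤ C0)
    (h : ∀ᶠ X : ℕ in atTop, (((Finset.Icc 1 X).filter P).card : ℝ) ≤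
      C0 * X / (Real.log X) ^ A) :
    ∃ Z1 : ℕ, 1 ≤ Z1 ∧ ∀ Z : ℕ, Z1 ≤ Z →
      volume ({v : ℝ | P ⌊Real.exp v⌋₊} ∩ Icc (Z : ℝ) (Z + 1)) ≤
        ENNReal.ofReal (6 * C0 / (Z : ℝ) ^ A) := by
  obtain ⟨X0, hX0⟩ := h.exists_forall_of_atTop
  refine ⟨max X0 1, le_max_right _ _, fun Z hZ => ?_⟩
  have hZX : X0 ≤ Z := (le_max_left _ _).trans hZ
  have hZ1 : 1 ≤ Z := (le_max_right _ _).trans hZ
  have hZr : (1 : ℝ) ≤ Z := by exact_mod_cast hZ1
  obtain ⟨X, hX⟩ : ∃ X : ℕ, X = ⌊Real.exp ((Z : ℝ) + 1)⌋₊ := ⟨_, rfl⟩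
  have hX1 : (X : ℝ) ≤ Real.exp ((Z : ℝ) + 1) := by
    rw [hX]; exact Nat.floor_le (Real.exp_pos _).le
  have hX2 : Real.exp ((Z : ℝ) + 1) - 1 < X := by
    rw [hX]; exact Nat.sub_one_lt_floor _
  have he1 : (2 : ℝ) ≤ Real.exp 1 := by have := Real.add_one_le_exp (1 : ℝ); linarith
  have he3 : Real.exp 1 ≤ 3 := by have := Real.exp_one_lt_d9; linarith
  have heZ : (Z : ℝ) + 1 ≤ Real.exp Z := Real.add_one_le_exp _
  have heZ1 : Real.exp ((Z : ℝ) + 1) = Real.exp Z * Real.exp 1 := Real.exp_add _ _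
  have hX3 : Real.exp Z ≤ X := by
    have : Real.exp Z * 2 ≤ Real.exp Z * Real.exp 1 :=
      mul_le_mul_of_nonneg_left he1 (Real.exp_pos _).le
    linarith
  have hXX0 : X0 ≤ X := by
    have : (Z : ℝ) ≤ X := by linarith
    have : Z ≤ X := by exact_mod_cast this
    omega
  have h1 := hX0 X hXX0
  have hlX : (Z : ℝ) ≤ Real.log X := by
    rw [Real.le_log_iff_exp_le (by linarith [Real.exp_pos (Z : ℝ)])]
    exact hX3
  obtain ⟨F, hF⟩ : ∃ F : Finset ℕ, F = (Finset.Icc 1 X).filter P := ⟨_, rfl⟩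
  rw [← hF] at h1
  have hsub : {v : ℝ | P ⌊Real.exp v⌋₊} ∩ Icc (Z : ℝ) (Z + 1) ⊆
      ⋃ n ∈ F.filter (fun n : ℕ => Real.exp Z / 2 ≤ (n : ℝ)), Icc (Real.log n) (Real.log ((n : ℝ) + 1)) := by
    rintro v ⟨hv, hvZ⟩
    have hv' : P ⌊Real.exp v⌋₊ := hv
    obtain ⟨n, hn⟩ : ∃ n : ℕ, n = ⌊Real.exp v⌋₊ := ⟨_, rfl⟩
    rw [← hn] at hv'
    have h2 : (n : ℝ) ≤ Real.exp v := by rw [hn]; exact Nat.floor_le (Real.exp_pos _).le
    have h3 : Real.exp v < (n : ℝ) + 1 := by rw [hn]; exact Nat.lt_floor_add_one _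
    have h4 : Real.exp Z ≤ Real.exp v := Real.exp_le_exp.2 hvZ.1
    have h5 : Real.exp v ≤ Real.exp ((Z : ℝ) + 1) := Real.exp_le_exp.2 hvZ.2
    have h6 : Real.exp Z / 2 ≤ (n : ℝ) := by linarith
    have h7 : 0 < (n : ℝ) := by linarith [Real.exp_pos (Z : ℝ)]
    rw [mem_iUnion₂]
    refine ⟨n, ?_, ?_, ?_⟩
    · rw [Finset.mem_filter, hF, Finset.mem_filter, Finset.mem_Icc]
      refine ⟨⟨⟨?_, ?_⟩, hv'⟩, h6⟩
      · have : 0 < n := by exact_mod_cast h7
        omega
      · rw [hn, hX]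
        exact Nat.floor_le_floor h5
    · rw [Real.log_le_iff_le_exp h7]; exact h2
    · rw [Real.le_log_iff_exp_le (by linarith)]; exact h3.le
  refine (measure_mono hsub).trans ((measure_biUnion_finset_le _ _).trans ?_)
  have h4 : ∀ n ∈ F.filter (fun n : ℕ => Real.exp Z / 2 ≤ (n : ℝ)),
      volume (Icc (Real.log n) (Real.log ((n : ℝ) + 1))) ≤ ENNReal.ofReal (2 / Real.exp Z) := by
    intro n hn
    rw [Finset.mem_filter] at hn
    rw [Real.volume_Icc]
    apply ENNReal.ofReal_le_ofReal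
    have h7 : 0 < (n : ℝ) := by linarith [Real.exp_pos (Z : ℝ), hn.2]
    rw [← Real.log_div (by linarith) h7.ne']
    have h8 := Real.log_le_sub_one_of_pos (show 0 < ((n : ℝ) + 1) / n by positivity)
    have h9 : ((n : ℝ) + 1) / n - 1 = 1 / n := by field_simp; ring
    rw [h9] at h8
    refine h8.trans ?_
    rw [div_le_div_iff₀ h7 (Real.exp_pos _)]
    linarith [hn.2]
  refine (Finset.sum_le_sum h4).trans ?_
  rw [Finset.sum_const, nsmul_eq_mul, ← ENNReal.ofReal_natCast,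
    ← ENNReal.ofReal_mul (Nat.cast_nonneg _)]
  apply ENNReal.ofReal_le_ofReal
  have h5 : ((F.filter (fun n : ℕ => Real.exp Z / 2 ≤ (n : ℝ))).card : ℝ) ≤ F.card := by
    exact_mod_cast Finset.card_filter_le _ _
  have hZA : (0 : ℝ) < (Z : ℝ) ^ A := by positivity
  have h6 : C0 * (X : ℝ) / (Real.log X) ^ A ≤ C0 * (Real.exp Z * 3) / (Z : ℝ) ^ A := by
    have : (Z : ℝ) ^ A ≤ (Real.log X) ^ A := pow_le_pow_left₀ (by linarith) hlX A
    have h7 : (X : ℝ) ≤ Real.exp Z * 3 := by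
      refine hX1.trans ?_
      rw [heZ1]
      exact mul_le_mul_of_nonneg_left he3 (Real.exp_pos _).le
    gcongr
  calc ((F.filter (fun n : ℕ => Real.exp Z / 2 ≤ (n : ℝ))).card : ℝ) * (2 / Real.exp Z)
      ≤ (C0 * (Real.exp Z * 3) / (Z : ℝ) ^ A) * (2 / Real.exp Z) := by
        apply mul_le_mul_of_nonneg_right _ (by positivity)
        linarith
    _ = 6 * C0 / (Z : ℝ) ^ A := by
        have := Real.exp_pos (Z : ℝ)
        field_simp
        ring

open Classical in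
/-- the terms of almost every progression avoid a thin set of integers -/
theorem metric {P : ℕ → Prop} {A : ℕ} {C0 : ℝ} (hC0 : 0 ≤ C0)
    (h : ∀ᶠ X : ℕ in atTop, (((Finset.Icc 1 X).filter P).card : ℝ) ≤
      C0 * X / (Real.log X) ^ A)
    {s : ℕ → ℝ} (hs : ∀ n, 1 ≤ s n) (hsum : Summable fun n => 1 / (s n) ^ A) :
    ∀ᵐ α ∂(volume.restrict (Ioi (1 : ℝ))), ∀ᶠ n : ℕ in atTop, ¬ P ⌊α ^ s n⌋₊ := by
  obtain ⟨Z1, hZ1, hvol⟩ := thin_vol hC0 h
  apply ae_exp
  intro a ha
  obtain ⟨S1, hS1⟩ : ∃ S1 : ℝ, S1 = max ((Z1 + 1) / a) (2 / a) := ⟨_, rfl⟩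
  have hS1p : 0 < S1 := by rw [hS1]; exact lt_max_of_lt_right (by positivity)
  obtain ⟨K, hK⟩ : ∃ K : ℝ, K = max (a * S1 ^ A) ((a + 2) * (6 * C0 * (2 / a) ^ A)) := ⟨_, rfl⟩
  have hK0 : 0 ≤ K := by rw [hK]; exact le_max_of_le_left (by positivity)
  have key : ∀ n, (volume.restrict (Ioc a (2 * a))) {β | s n * β ∈ {v : ℝ | P ⌊Real.exp v⌋₊}} ≤
      ENNReal.ofReal (K * (1 / (s n) ^ A)) := by
    intro n
    have hsp : 0 < s n := by linarith [hs n]
    have hsA : 0 < (s n) ^ A := by positivity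
    by_cases hc : S1 ≤ s n
    · have h1 : (Z1 + 1 : ℝ) / a ≤ s n := by
        rw [hS1] at hc; exact (le_max_left _ _).trans hc
      have h2 : 2 / a ≤ s n := by
        rw [hS1] at hc; exact (le_max_right _ _).trans hc
      rw [div_le_iff₀ ha] at h1 h2
      have h3 := scale_thin ha (by linarith : a ≤ 2 * a) hsp (q := 6 * C0 * (2 / (s n * a)) ^ A)
        (by positivity) {v : ℝ | P ⌊Real.exp v⌋₊} (by
        intro Z hZa hZb
        have h4 : s n * a - 1 ≤ Z := by
          have := Nat.lt_floor_add_one (s n * a)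
          have h5 : (⌊s n * a⌋₊ : ℝ) ≤ Z := by exact_mod_cast hZa
          linarith
        have h5 : Z1 ≤ Z := by
          have : (Z1 : ℝ) ≤ Z := by linarith
          exact_mod_cast this
        refine (hvol Z h5).trans (ENNReal.ofReal_le_ofReal ?_)
        have hZp : (0 : ℝ) < Z := by linarith
        have h6 : s n * a / 2 ≤ Z := by linarith
        have h7 : 6 * C0 / (Z : ℝ) ^ A = 6 * C0 * (1 / (Z : ℝ)) ^ A := by
          rw [div_pow, one_pow]; ring
        rw [h7]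
        have h8 : 1 / (Z : ℝ) ≤ 2 / (s n * a) := by
          rw [div_le_div_iff₀ hZp (by positivity)]
          linarith
        gcongr)
      refine h3.trans (ENNReal.ofReal_le_ofReal ?_)
      have e : (2 : ℝ) / (s n * a) = (2 / a) * (1 / s n) := by field_simp
      rw [e, mul_pow, div_pow 1 (s n), one_pow]
      have e2 : (s n * (2 * a - a) + 2) * (6 * C0 * ((2 / a) ^ A * (1 / (s n) ^ A))) / s n =
          ((a + 2 / s n) * (6 * C0 * (2 / a) ^ A)) * (1 / (s n) ^ A) := by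
        field_simp
        ring
      rw [e2]
      apply mul_le_mul_of_nonneg_right _ (by positivity)
      rw [hK]
      refine le_trans ?_ (le_max_right _ _)
      apply mul_le_mul_of_nonneg_right _ (by positivity)
      have : 2 / s n ≤ 2 := by rw [div_le_iff₀ hsp]; linarith [hs n]
      linarith
    · rw [not_le] at hc
      have h1 : (volume.restrict (Ioc a (2 * a))) {β | s n * β ∈ {v : ℝ | P ⌊Real.exp v⌋₊}} ≤
          ENNReal.ofReal a := by
        refine (measure_mono (subset_univ _)).trans ?_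
        rw [Measure.restrict_apply_univ, Real.volume_Ioc]
        apply ENNReal.ofReal_le_ofReal
        linarith
      refine h1.trans (ENNReal.ofReal_le_ofReal ?_)
      have h2 : (s n) ^ A ≤ S1 ^ A := pow_le_pow_left₀ hsp.le hc.le A
      have h3 : a * (s n) ^ A ≤ K := by
        rw [hK]
        exact (mul_le_mul_of_nonneg_left h2 ha.le).trans (le_max_left _ _)
      rw [mul_one_div, le_div_iff₀ hsA]
      exact h3
  have htsum : ∑' n, (volume.restrict (Ioc a (2 * a)))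
      {β | s n * β ∈ {v : ℝ | P ⌊Real.exp v⌋₊}} ≠ ⊤ := by
    have h1 : Summable fun n => K * (1 / (s n) ^ A) := hsum.mul_left K
    have h2 := ENNReal.tsum_le_tsum key
    refine ne_top_of_le_ne_top ?_ h2
    rw [← ENNReal.ofReal_tsum_of_nonneg (fun n => ?_) h1]
    · exact ENNReal.ofReal_ne_top
    · have : 0 < s n := by linarith [hs n]
      positivity
  have hae := ae_eventually_notMem htsum
  filter_upwards [hae] with β hβ
  filter_upwards [hβ] with n hn hP
  apply hn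
  show P ⌊Real.exp (s n * β)⌋₊
  have e : Real.exp (s n * β) = Real.exp β ^ s n := by
    rw [← Real.exp_mul, mul_comm]
  rw [e]
  exact hP

end Pool.Agent.U762.SH
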