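import Pool.Agent.U762.SH.Main1

/-! Very short intervals, for the inequality `π(x + y) ≤ π(x) + π(y)`. -/

set_option autoImplicit false

namespace Pool.Agent.U762.SH

open Finset Filter Topology
open Pool.Agent.R516 (pcn Hi St_U)

/-- the primes below `68` -/
def P68 : Finset ℕ := {2, 3, 5, 7, 11, 13, 17, 19, 23, 29, 31, 37, 41, 43, 47, 53, 59, 61, 67}

lemma P68_prime : ∀ p ∈ P68, p.Prime := by
  unfold P68
  intro p hp
  simp only [mem_insert, mem_singleton] at hp
  rcases hp with h | h | h | h | h | h | h | h | h | h | h | h | h | h | h | h | h | h | h <;>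
    · subst h; norm_num

/-- no window of at most `68` integers contains too many integers prime to `30` -/
theorem mod30 : ∀ r ∈ range 30, ∀ m ∈ range 69, m < 2 ∨
    ((range m).filter (fun i => (r + 1 + i) % 2 ≠ 0 ∧ (r + 1 + i) % 3 ≠ 0 ∧
      (r + 1 + i) % 5 ≠ 0)).card ≤ (P68.filter (fun p => p ≤ m)).card := by
  decide +kernel

lemma P68_le (m : ℕ) : (P68.filter (fun p => p ≤ m)).card ≤ Nat.primeCounting m := by
  unfold Nat.primeCounting Nat.primeCounting'
  rw [Nat.count_eq_card_filter_range]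
  apply card_le_card
  intro p hp
  rw [mem_filter] at hp
  rw [mem_filter, mem_range]
  exact ⟨by omega, P68_prime p hp.1⟩

theorem pcn_small {n m : ℕ} (hn : 5 ≤ n) (hm : 2 ≤ m) (hm2 : m ≤ 68) :
    pcn n (n + m) ≤ Nat.primeCounting m := by
  refine le_trans ?_ (P68_le m)
  rcases mod30 (n % 30) (mem_range.2 (Nat.mod_lt _ (by norm_num))) m (mem_range.2 (by omega))
    with h | h
  · omega
  refine le_trans ?_ h
  unfold pcn
  apply card_le_card_of_injOn (fun p => p - (n + 1))
  · intro p hp
    rw [mem_coe, mem_filter, mem_Ioc] at hp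
    rw [mem_coe, mem_filter, mem_range]
    obtain ⟨⟨h1, h2⟩, h3⟩ := hp
    have e2 : ¬ 2 ∣ p := by
      intro hc
      have := (Nat.prime_dvd_prime_iff_eq Nat.prime_two h3).1 hc
      omega
    have e3 : ¬ 3 ∣ p := by
      intro hc
      have := (Nat.prime_dvd_prime_iff_eq Nat.prime_three h3).1 hc
      omega
    have e5 : ¬ 5 ∣ p := by
      intro hc
      have := (Nat.prime_dvd_prime_iff_eq Nat.prime_five h3).1 hc
      omega
    simp only
    omega
  · intro a ha b hb hab
    rw [mem_coe, mem_filter, mem_Ioc] at ha hb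
    simp only at hab
    omega

/-- `n` violates the inequality at some `y ≤ n ^ (5 / 18 - δ)` -/
def ExH (δ : ℝ) (n : ℕ) : Prop := ∃ y : ℕ, 2 ≤ y ∧ (y : ℝ) ≤ ((n : ℝ) + 1) ^ (5 / 18 - δ) ∧
  Nat.primeCounting y < pcn n (n + y)

open Classical in
theorem main2 (hU : St_U) (δ : ℝ) (hδ : 0 < δ) : ∃ K : ℝ, 0 < K ∧ ∀ X : ℕ, 2 ≤ X →
    (((Icc 1 X).filter (fun n => ExH δ n)).card : ℝ) ≤ K * X / (Real.log X) ^ 20 := by
  obtain ⟨y0, hy0, h1⟩ := main1 hU 1 δ one_pos le_rfl hδ 21
  obtain ⟨C, hC, x0, h2⟩ := tupN 17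
  obtain ⟨m0, hm0⟩ : ∃ m0 : ℕ, m0 = ⌈y0⌉₊ := ⟨_, rfl⟩
  have hm0' : y0 ≤ m0 := by rw [hm0]; exact Nat.le_ceil _
  have hm1 : 1 ≤ m0 := by
    have : (2 : ℝ) ≤ m0 := by linarith
    have : 2 ≤ m0 := by exact_mod_cast this
    omega
  have hev : ∀ᶠ X : ℕ in atTop, (((Icc 1 X).filter (fun n => ExH δ n)).card : ℝ) ≤
      (5 + C * (m0 : ℝ) ^ 20) * (X / (Real.log X) ^ 20) := by
    have hpow := (tendsto_natCast_atTop_atTop (R := ℝ)).eventually (ev_log_pow 1 20)
    filter_upwards [h1, eventually_ge_atTop x0, eventually_ge_atTop m0, hpow,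
      tendsto_log_nat.eventually_ge_atTop 1, eventually_ge_atTop 2] with X a1 a2 a3 a4 a5 a6
    have hsub : (Icc 1 X).filter (fun n => ExH δ n) ⊆
        (Icc 1 4 ∪ (Icc 1 X).filter (fun n => 20 ≤ pcn n (n + m0))) ∪
          (Icc 1 X).filter (fun n => Ex 1 δ y0 n) := by
      intro n hn
      rw [mem_filter, mem_Icc] at hn
      obtain ⟨⟨hn1, hnX⟩, y, b1, b2, b3⟩ := hn
      rw [mem_union, mem_union, mem_Icc, mem_filter, mem_filter, mem_Icc]
      by_cases c1 : n ≤ 4
      · exact Or.inl (Or.inl ⟨hn1, c1⟩)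
      by_cases c2 : y0 ≤ y
      · right
        refine ⟨⟨hn1, hnX⟩, (y : ℝ), c2, ?_, ?_⟩
        · rw [mul_one]; exact b2
        · have e : ⌊((n : ℕ) : ℝ) + (y : ℕ)⌋₊ = n + y := by
            have : ((n : ℕ) : ℝ) + (y : ℕ) = ((n + y : ℕ) : ℝ) := by push_cast; ring
            rw [this, Nat.floor_natCast]
          rw [e, Nat.floor_natCast, one_mul]
          have h5 : pcn n (n + y) ≤ pcn n (n + y + 1) := pcn_mono (by omega)
          exact_mod_cast lt_of_lt_of_le b3 h5
      · left; right
        rw [not_le] at c2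
        refine ⟨⟨hn1, hnX⟩, ?_⟩
        have hy68 : 68 < y := by
          by_contra hc
          rw [not_lt] at hc
          have := pcn_small (n := n) (m := y) (by omega) b1 hc
          omega
        have h19 : 19 ≤ Nat.primeCounting y := by
          refine le_trans ?_ (P68_le y)
          have : P68.filter (fun p => p ≤ y) = P68 := by
            apply filter_true_of_mem
            intro p hp
            unfold P68 at hp
            simp only [mem_insert, mem_singleton] at hp
            omega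
          rw [this]
          decide
        have hym : y ≤ m0 := by
          have : (y : ℝ) ≤ m0 := by linarith
          exact_mod_cast this
        have h5 : pcn n (n + y) ≤ pcn n (n + m0) := pcn_mono (by omega)
        omega
    have h3 := h2 X a2 m0 hm1 a3 20
    have e20 : ((20 : ℕ).choose (17 + 3) : ℝ) = 1 := by norm_num
    rw [e20, mul_one] at h3
    have hX0 : (0 : ℝ) ≤ X := Nat.cast_nonneg X
    obtain ⟨L, hLd⟩ : ∃ L : ℝ, L = Real.log X := ⟨_, rfl⟩
    rw [← hLd] at a1 a4 a5 h3 ⊢
    have hL0 : 0 < L := by linarith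
    have h4 : (((Icc 1 X).filter (fun n => ExH δ n)).card : ℝ) ≤
        (4 + (((Icc 1 X).filter (fun n => 20 ≤ pcn n (n + m0))).card : ℝ)) +
          (((Icc 1 X).filter (fun n => Ex 1 δ y0 n)).card : ℝ) := by
      have : ((Icc 1 X).filter (fun n => ExH δ n)).card ≤
          (4 + ((Icc 1 X).filter (fun n => 20 ≤ pcn n (n + m0))).card) +
          ((Icc 1 X).filter (fun n => Ex 1 δ y0 n)).card := by
        refine (card_le_card hsub).trans ((card_union_le _ _).trans ?_)
        apply Nat.add_le_add_right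
        refine (card_union_le _ _).trans ?_
        apply Nat.add_le_add_right
        simp
      exact_mod_cast this
    have h5 : 1 ≤ X / L ^ 20 := by
      rw [le_div_iff₀ (by positivity)]
      rw [one_mul] at a4 ⊢
      exact a4
    have h6 : X / L ^ 21 ≤ X / L ^ 20 := by
      apply div_le_div_of_nonneg_left hX0 (by positivity)
      exact pow_le_pow_right₀ a5 (by norm_num)
    have h7 : C * X * (m0 : ℝ) ^ (17 + 3) / L ^ (17 + 3) = C * (m0 : ℝ) ^ 20 * (X / L ^ 20) := by
      norm_num
      ring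
    rw [h7] at h3
    have h8 : (5 + C * (m0 : ℝ) ^ 20) * (X / L ^ 20) =
      4 * (X / L ^ 20) + C * (m0 : ℝ) ^ 20 * (X / L ^ 20) + X / L ^ 20 := by ring
    rw [h8]
    linarith
  -- all `X`
  obtain ⟨X0, hX0⟩ := hev.exists_forall_of_atTop
  refine ⟨max (5 + C * (m0 : ℝ) ^ 20) ((Real.log X0) ^ 20), by positivity, fun X hX => ?_⟩
  have hXr : (2 : ℝ) ≤ X := by exact_mod_cast hX
  have hl : 0 < Real.log X := Real.log_pos (by linarith)
  rcases le_total X0 X with h3 | h3
  · refine (hX0 X h3).trans ?_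
    rw [← mul_div_assoc]
    apply div_le_div_of_nonneg_right _ (by positivity)
    apply mul_le_mul_of_nonneg_right (le_max_left _ _) (by linarith)
  · have h4 : (((Icc 1 X).filter (fun n => ExH δ n)).card : ℝ) ≤ X := by
      have : ((Icc 1 X).filter (fun n => ExH δ n)).card ≤ X := by
        refine (card_filter_le _ _).trans ?_
        rw [Nat.card_Icc]; omega
      exact_mod_cast this
    refine h4.trans ?_
    rw [le_div_iff₀ (by positivity)]
    have h5 : (Real.log X) ^ 20 ≤ (Real.log X0) ^ 20 := by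
      apply pow_le_pow_left₀ hl.le
      apply Real.log_le_log (by linarith)
      exact_mod_cast h3
    have h6 := h5.trans (le_max_right (5 + C * (m0 : ℝ) ^ 20) ((Real.log X0) ^ 20))
    calc (X : ℝ) * (Real.log X) ^ 20 ≤ X * max (5 + C * (m0 : ℝ) ^ 20) ((Real.log X0) ^ 20) := by
          gcongr
      _ = _ := by ring

end Pool.Agent.U762.SH
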