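import Pool.Agent.U762.SH.Large

/-! The exceptional integers. -/

set_option autoImplicit false

namespace Pool.Agent.U762.SH

open Finset Filter Topology
open Pool.Agent.R516 (pcn Hi St_U)

/-- `n` sees too many primes in some window of length between `y0` and `n ^ (5 ε / 18 - δ)` -/
def Ex (ε δ y0 : ℝ) (n : ℕ) : Prop := ∃ y : ℝ, y0 ≤ y ∧ y ≤ ((n : ℝ) + 1) ^ (5 * ε / 18 - δ) ∧
  ε * (Nat.primeCounting ⌊y⌋₊ : ℝ) < (pcn n (⌊(n : ℝ) + y⌋₊ + 1) : ℝ)

lemma Ex_mono {ε δ δ' y0 : ℝ} {n : ℕ} (hδ : δ' ≤ δ) (h : Ex ε δ y0 n) : Ex ε δ' y0 n := by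
  obtain ⟨y, h1, h2, h3⟩ := h
  refine ⟨y, h1, h2.trans ?_, h3⟩
  apply Real.rpow_le_rpow_of_exponent_le _ (by linarith)
  have : (0 : ℝ) ≤ n := Nat.cast_nonneg n
  linarith

open Classical in
theorem main1 (hU : St_U) (ε δ : ℝ) (hε : 0 < ε) (hε1 : ε ≤ 1) (hδ : 0 < δ) (A : ℕ) :
    ∃ y0 : ℝ, 2 ≤ y0 ∧ ∀ᶠ X : ℕ in atTop,
      (((Icc 1 X).filter (fun n => Ex ε δ y0 n)).card : ℝ) ≤ X / (Real.log X) ^ A := by
  obtain ⟨d, hd⟩ : ∃ d : ℝ, d = min δ (1 / 2) := ⟨_, rfl⟩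
  have hd0 : 0 < d := by rw [hd]; exact lt_min hδ (by norm_num)
  have hd1 : d ≤ 1 / 2 := by rw [hd]; exact min_le_right _ _
  have hd2 : d ≤ δ := by rw [hd]; exact min_le_left _ _
  obtain ⟨i0, hi0, hS⟩ := badS_card ε hε (A + 1) (A + 22)
  have hL := badL_card hU d hd0 (A + 1)
  have hLs := badL_spec ε d hε hε1 hd0 hd1 (A + 22) (by omega)
  refine ⟨(2 : ℝ) ^ i0, ?_, ?_⟩
  · calc (2 : ℝ) = 2 ^ 1 := by norm_num
      _ ≤ 2 ^ i0 := pow_le_pow_right₀ (by norm_num) hi0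
  have hll : Tendsto (fun X : ℕ => Real.log (Real.log X)) atTop atTop :=
    Real.tendsto_log_atTop.comp tendsto_log_nat
  filter_upwards [hS, hL, hLs, hll.eventually_ge_atTop 1, tendsto_log_nat.eventually_ge_atTop 2,
    eventually_ge_atTop 1] with X h1 h2 h3 hl2 hl hX1
  have hsub : (Icc 1 X).filter (fun n => Ex ε δ ((2 : ℝ) ^ i0) n) ⊆
      badS ε (A + 22) i0 X ∪ badL d (A + 22) X := by
    intro n hn
    rw [mem_filter, mem_Icc] at hn
    obtain ⟨hn1, hn2⟩ := hn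
    by_contra hc
    rw [mem_union, not_or] at hc
    obtain ⟨y, a1, a2, a3⟩ := Ex_mono hd2 hn2
    rcases le_total y ((Real.log X) ^ (A + 22)) with h4 | h4
    · have h5 := badS_spec hε hn1.1 hn1.2 hl2 hc.1 a1 h4
      linarith
    · have h5 := h3 n hn1.1 hn1.2 hc.2 y h4 a2
      linarith
  have h4 : (((Icc 1 X).filter (fun n => Ex ε δ ((2 : ℝ) ^ i0) n)).card : ℝ) ≤
      ((badS ε (A + 22) i0 X).card : ℝ) + ((badL d (A + 22) X).card : ℝ) := by
    have : ((Icc 1 X).filter (fun n => Ex ε δ ((2 : ℝ) ^ i0) n)).card ≤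
      (badS ε (A + 22) i0 X).card + (badL d (A + 22) X).card :=
      (card_le_card hsub).trans (card_union_le _ _)
    exact_mod_cast this
  obtain ⟨L, hLd⟩ : ∃ L : ℝ, L = Real.log X := ⟨_, rfl⟩
  rw [← hLd] at h1 h2 hl ⊢
  have hX0 : (0 : ℝ) ≤ X := Nat.cast_nonneg X
  have hL0 : 0 < L := by linarith
  have h2' : ((badL d (A + 22) X).card : ℝ) ≤ X / L ^ (A + 1) := h2
  calc (((Icc 1 X).filter (fun n => Ex ε δ ((2 : ℝ) ^ i0) n)).card : ℝ)
      ≤ X / L ^ (A + 1) + X / L ^ (A + 1) := by linarith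
    _ = 2 / L * (X / L ^ A) := by rw [pow_succ]; field_simp; norm_num
    _ ≤ 1 * (X / L ^ A) := by
        apply mul_le_mul_of_nonneg_right _ (by positivity)
        rw [div_le_one hL0]; exact hl
    _ = X / L ^ A := one_mul _

/-- from large `X` to all `X` -/
theorem all_X {P : ℕ → Prop} {A : ℕ} [DecidablePred P]
    (h : ∀ᶠ X : ℕ in atTop, (((Icc 1 X).filter P).card : ℝ) ≤ X / (Real.log X) ^ A) :
    ∃ K : ℝ, 0 < K ∧ ∀ X : ℕ, 2 ≤ X → (((Icc 1 X).filter P).card : ℝ) ≤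
      K * X / (Real.log X) ^ A := by
  obtain ⟨X0, hX0⟩ := h.exists_forall_of_atTop
  refine ⟨max 1 ((Real.log X0) ^ A), by positivity, fun X hX => ?_⟩
  have hXr : (2 : ℝ) ≤ X := by exact_mod_cast hX
  have hl : 0 < Real.log X := Real.log_pos (by linarith)
  rcases le_total X0 X with h1 | h1
  · refine (hX0 X h1).trans ?_
    apply div_le_div_of_nonneg_right _ (by positivity)
    have : (1 : ℝ) * X ≤ max 1 ((Real.log X0) ^ A) * X := by
      apply mul_le_mul_of_nonneg_right (le_max_left _ _) (by linarith)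
    linarith
  · have h2 : (((Icc 1 X).filter P).card : ℝ) ≤ X := by
      have : ((Icc 1 X).filter P).card ≤ X := by
        refine (card_filter_le _ _).trans ?_
        rw [Nat.card_Icc]; omega
      exact_mod_cast this
    refine h2.trans ?_
    rw [le_div_iff₀ (by positivity)]
    have h3 : (Real.log X) ^ A ≤ (Real.log X0) ^ A := by
      apply pow_le_pow_left₀ hl.le
      apply Real.log_le_log (by linarith)
      exact_mod_cast h1
    have h4 : (Real.log X) ^ A ≤ max 1 ((Real.log X0) ^ A) := h3.trans (le_max_right _ _)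
    calc (X : ℝ) * (Real.log X) ^ A ≤ X * max 1 ((Real.log X0) ^ A) := by gcongr
      _ = _ := by ring

end Pool.Agent.U762.SH
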