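import Pool.Agent.U762.SH.Tup
import Pool.Agent.Helper923.PNT

/-! Short intervals of length at most a power of the logarithm. -/

set_option autoImplicit false

namespace Pool.Agent.U762.SH

open Finset Filter Topology
open Pool.Agent.R516 (pcn)

lemma pcn_mono {a b c : ℕ} (h : b ≤ c) : pcn a b ≤ pcn a c := by
  unfold pcn
  apply card_le_card
  intro p hp
  rw [mem_filter, mem_Ioc] at hp ⊢
  exact ⟨⟨hp.1.1, hp.1.2.trans h⟩, hp.2⟩

/-- a lower bound of Chebyshev's type along powers of two -/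
lemma cheb : ∃ i1 : ℕ, ∀ i : ℕ, i1 ≤ i → (2 : ℝ) ^ i / (2 * i) ≤ Nat.primeCounting (2 ^ i) := by
  have h1 := Pool.Agent.Helper923.PNT.pi_tendsto.eventually
    (eventually_ge_nhds (by norm_num : (1 / 2 : ℝ) < 1))
  have h2 : Tendsto (fun i : ℕ => (2 : ℝ) ^ i) atTop atTop :=
    tendsto_pow_atTop_atTop_of_one_lt (by norm_num)
  have h3 := (h2.eventually h1).and (eventually_ge_atTop 1)
  obtain ⟨i1, hi1⟩ := h3.exists_forall_of_atTop
  refine ⟨i1, fun i hi => ?_⟩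
  obtain ⟨a1, a2⟩ := hi1 i hi
  have hi0 : (0 : ℝ) < i := by exact_mod_cast a2
  have e1 : ⌊(2 : ℝ) ^ i⌋₊ = 2 ^ i := by
    have : ((2 : ℝ) ^ i) = ((2 ^ i : ℕ) : ℝ) := by push_cast; rfl
    rw [this, Nat.floor_natCast]
  rw [e1, Real.log_pow] at a1
  have hp : (0 : ℝ) < 2 ^ i := by positivity
  rw [div_le_iff₀ (by positivity)]
  rw [le_div_iff₀ hp] at a1
  have h5 : Real.log 2 ≤ 1 := by
    have := Real.log_two_lt_d9
    linarith
  have h6 : (0 : ℝ) ≤ Nat.primeCounting (2 ^ i) := Nat.cast_nonneg _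
  have h7 : (Nat.primeCounting (2 ^ i) : ℝ) * (i * Real.log 2) ≤
      (Nat.primeCounting (2 ^ i) : ℝ) * (i * 1) := by
    apply mul_le_mul_of_nonneg_left _ h6
    apply mul_le_mul_of_nonneg_left h5 hi0.le
  linarith

/-- the exceptional integers of one dyadic block -/
noncomputable def badI (ε : ℝ) (i X : ℕ) : Finset ℕ :=
  (Icc 1 X).filter (fun n => ε * (Nat.primeCounting (2 ^ i) : ℝ) < (pcn n (n + 2 ^ (i + 1)) : ℝ))

theorem badI_card (ε : ℝ) (hε : 0 < ε) (k : ℕ) : ∃ C : ℝ, 0 < C ∧ ∃ i0 x0 : ℕ, 1 ≤ i0 ∧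
    ∀ i X : ℕ, i0 ≤ i → x0 ≤ X → 2 ^ (i + 1) ≤ X →
      ((badI ε i X).card : ℝ) ≤ C * X * ((i : ℝ) / Real.log X) ^ (k + 3) := by
  obtain ⟨C, hC, x₀, h⟩ := tupN k
  obtain ⟨i1, hi1⟩ := cheb
  -- largeness of `i`
  have hgrow : Tendsto (fun i : ℕ => (2 : ℝ) ^ i / i) atTop atTop := by
    have h1 : Tendsto (fun i : ℕ => (i : ℝ) ^ 1 / (2 : ℝ) ^ i) atTop (𝓝 0) :=
      tendsto_pow_const_div_const_pow_of_one_lt 1 (by norm_num)
    have h2 : Tendsto (fun i : ℕ => (i : ℝ) ^ 1 / (2 : ℝ) ^ i) atTop (𝓝[>] 0) := by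
      rw [tendsto_nhdsWithin_iff]
      refine ⟨h1, ?_⟩
      filter_upwards [eventually_ge_atTop 1] with i hi
      have : (0 : ℝ) < i := by exact_mod_cast hi
      exact Set.mem_Ioi.2 (by positivity)
    have h3 := h2.inv_tendsto_nhdsGT_zero
    refine h3.congr fun i => ?_
    simp
  obtain ⟨i2, hi2⟩ := ((hgrow.eventually_ge_atTop (4 * (k + 3) / ε)).exists_forall_of_atTop)
  refine ⟨C * (k + 3).factorial * (8 / ε) ^ (k + 3), by positivity, max (max i1 i2) 1, max x₀ 2,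
    le_max_right _ _, fun i X hi hX hiX => ?_⟩
  have hii1 : i1 ≤ i := ((le_max_left _ _).trans (le_max_left _ _)).trans hi
  have hii2 : i2 ≤ i := ((le_max_right _ _).trans (le_max_left _ _)).trans hi
  have hi1' : 1 ≤ i := (le_max_right _ _).trans hi
  have hX0 : x₀ ≤ X := (le_max_left _ _).trans hX
  have hX2 : 2 ≤ X := (le_max_right _ _).trans hX
  have hiR : (0 : ℝ) < i := by exact_mod_cast hi1'
  have hL : 0 < Real.log X := Real.log_pos (by exact_mod_cast (by omega : 1 < X))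
  obtain ⟨N, hN⟩ : ∃ N : ℕ, N = ⌊ε * (Nat.primeCounting (2 ^ i) : ℝ)⌋₊ + 1 := ⟨_, rfl⟩
  have hN1 : ε * (Nat.primeCounting (2 ^ i) : ℝ) < N := by
    rw [hN]; push_cast; exact Nat.lt_floor_add_one _
  obtain ⟨t, ht⟩ : ∃ t : ℝ, t = ε * 2 ^ i / (4 * i) := ⟨_, rfl⟩
  have ht0 : 0 < t := by rw [ht]; positivity
  have hNt : 2 * t ≤ N := by
    have h1 := hi1 i hii1
    have h2 : ε * ((2 : ℝ) ^ i / (2 * i)) ≤ ε * (Nat.primeCounting (2 ^ i) : ℝ) :=
      mul_le_mul_of_nonneg_left h1 hε.le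
    have e : 2 * t = ε * ((2 : ℝ) ^ i / (2 * i)) := by rw [ht]; field_simp; ring
    rw [e]; linarith
  have htk : (k : ℝ) + 3 ≤ t := by
    have h1 := hi2 i hii2
    have e : t = ε / 4 * ((2 : ℝ) ^ i / i) := by rw [ht]; field_simp
    rw [e]
    calc (k : ℝ) + 3 = ε / 4 * (4 * (k + 3) / ε) := by field_simp
      _ ≤ _ := by gcongr
  -- the binomial coefficient
  have hch : t ^ (k + 3) ≤ (k + 3).factorial * (N.choose (k + 3) : ℝ) := by
    have h1 := Nat.pow_le_choose (α := ℝ) (k + 3) N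
    have hf : (0 : ℝ) < (k + 3).factorial := by exact_mod_cast Nat.factorial_pos _
    rw [div_le_iff₀ hf] at h1
    have h2 : t ≤ ((N + 1 - (k + 3) : ℕ) : ℝ) := by
      have h3 : k + 3 ≤ N := by
        have : ((k + 3 : ℕ) : ℝ) ≤ N := by push_cast; linarith
        exact_mod_cast this
      rw [Nat.cast_sub (by omega)]
      push_cast
      linarith
    calc t ^ (k + 3) ≤ ((N + 1 - (k + 3) : ℕ) : ℝ) ^ (k + 3) := by gcongr
      _ ≤ _ := by linarith
  have hyX : 2 ^ (i + 1) ≤ X := hiX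
  have h1 := h X hX0 (2 ^ (i + 1)) Nat.one_le_two_pow hyX N
  have h2 : ((badI ε i X).card : ℝ) ≤
      (((Icc 1 X).filter (fun n => N ≤ pcn n (n + 2 ^ (i + 1)))).card : ℝ) := by
    have : (badI ε i X).card ≤ ((Icc 1 X).filter (fun n => N ≤ pcn n (n + 2 ^ (i + 1)))).card := by
      apply card_le_card
      intro n hn
      unfold badI at hn
      rw [mem_filter] at hn ⊢
      refine ⟨hn.1, ?_⟩
      rw [hN]
      exact Nat.succ_le_of_lt ((Nat.floor_lt (by positivity)).2 hn.2)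
    exact_mod_cast this
  have h3 : ((badI ε i X).card : ℝ) * t ^ (k + 3) ≤
      (C * (k + 3).factorial * (8 / ε) ^ (k + 3)) * X * ((i : ℝ) / Real.log X) ^ (k + 3) *
        t ^ (k + 3) := by
    calc ((badI ε i X).card : ℝ) * t ^ (k + 3)
        ≤ (((Icc 1 X).filter (fun n => N ≤ pcn n (n + 2 ^ (i + 1)))).card : ℝ) *
          ((k + 3).factorial * (N.choose (k + 3) : ℝ)) := by gcongr
      _ = (k + 3).factorial * ((((Icc 1 X).filter (fun n => N ≤ pcn n (n + 2 ^ (i + 1)))).card : ℝ) *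
          (N.choose (k + 3) : ℝ)) := by ring
      _ ≤ (k + 3).factorial * (C * X * ((2 ^ (i + 1) : ℕ) : ℝ) ^ (k + 3) /
          (Real.log X) ^ (k + 3)) := by gcongr
      _ = _ := by
          have e1 : ((2 ^ (i + 1) : ℕ) : ℝ) = (8 / ε) * i * t := by
            rw [ht]; push_cast; field_simp; ring
          rw [e1, mul_pow, mul_pow, div_pow]
          ring
  exact le_of_mul_le_mul_right h3 (by positivity)

end Pool.Agent.U762.SH
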