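import Pool.Agent.U762.SH.Small

/-! All short intervals of length at most a power of the logarithm. -/

set_option autoImplicit false

namespace Pool.Agent.U762.SH

open Finset Filter Topology
open Pool.Agent.R516 (pcn)

/-- the number of dyadic blocks -/
noncomputable def JJ (B X : ℕ) : ℕ := ⌊2 * B * Real.log (Real.log X)⌋₊

/-- the exceptional integers of all dyadic blocks -/
noncomputable def badS (ε : ℝ) (B i0 X : ℕ) : Finset ℕ :=
  (Icc i0 (JJ B X)).biUnion (fun i => badI ε i X)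

lemma ev_log_pow (C : ℝ) (m : ℕ) : ∀ᶠ L : ℝ in atTop, C * (Real.log L) ^ m ≤ L := by
  have h1 := (Real.isLittleO_pow_log_id_atTop (n := m)).bound
    (show (0 : ℝ) < 1 / (|C| + 1) by positivity)
  filter_upwards [h1, eventually_ge_atTop 1] with L hL hL1
  have h2 : 0 ≤ Real.log L := Real.log_nonneg hL1
  rw [id, Real.norm_of_nonneg (by positivity), Real.norm_of_nonneg (by linarith)] at hL
  have hC : 0 < |C| + 1 := by positivity
  have h3 : C * (Real.log L) ^ m ≤ (|C| + 1) * (Real.log L) ^ m := by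
    apply mul_le_mul_of_nonneg_right _ (by positivity)
    linarith [le_abs_self C]
  have h4 : (|C| + 1) * (Real.log L) ^ m ≤ (|C| + 1) * (1 / (|C| + 1) * L) :=
    mul_le_mul_of_nonneg_left hL hC.le
  have h5 : (|C| + 1) * (1 / (|C| + 1) * L) = L := by field_simp
  linarith

lemma tendsto_log_nat : Tendsto (fun X : ℕ => Real.log X) atTop atTop :=
  Real.tendsto_log_atTop.comp tendsto_natCast_atTop_atTop

theorem badS_card (ε : ℝ) (hε : 0 < ε) (A B : ℕ) : ∃ i0 : ℕ, 1 ≤ i0 ∧ ∀ᶠ X : ℕ in atTop,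
    ((badS ε B i0 X).card : ℝ) ≤ X / (Real.log X) ^ A := by
  obtain ⟨C, hC, i0, x0, hi0, h⟩ := badI_card ε hε A
  refine ⟨i0, hi0, ?_⟩
  have hll : Tendsto (fun X : ℕ => Real.log (Real.log X)) atTop atTop :=
    Real.tendsto_log_atTop.comp tendsto_log_nat
  -- `2 ^ (i + 1) ≤ X`
  have hpow : ∀ᶠ X : ℕ in atTop, 2 * (Real.log X) ^ (2 * B) ≤ X := by
    have h1 := (ev_log_pow 2 (2 * B))
    exact (tendsto_natCast_atTop_atTop (R := ℝ)).eventually h1
  have hfin : ∀ᶠ X : ℕ in atTop, C * (2 * B + 1) ^ (A + 4) * (Real.log (Real.log X)) ^ (A + 4) ≤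
      Real.log X := tendsto_log_nat.eventually (ev_log_pow (C * (2 * B + 1) ^ (A + 4)) (A + 4))
  filter_upwards [eventually_ge_atTop x0, hpow, hfin, hll.eventually_ge_atTop 1,
    tendsto_log_nat.eventually_ge_atTop 1, eventually_ge_atTop 1] with X hX hp hf hL2 hL1 hX1
  have hXr : (1 : ℝ) ≤ X := by exact_mod_cast hX1
  obtain ⟨L, hL⟩ : ∃ L : ℝ, L = Real.log X := ⟨_, rfl⟩
  obtain ⟨l, hl⟩ : ∃ l : ℝ, l = Real.log L := ⟨_, rfl⟩
  rw [← hL] at hp hf hL1 hL2 ⊢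
  rw [← hl] at hf hL2
  have hI : ((JJ B X : ℕ) : ℝ) ≤ (2 * B) * l := by
    unfold JJ
    rw [← hL, ← hl]
    exact Nat.floor_le (by positivity)
  have hI1 : ((JJ B X : ℕ) : ℝ) ≤ (2 * B + 1) * l := by linarith
  have hI2 : ((JJ B X : ℕ) : ℝ) + 1 ≤ (2 * B + 1) * l := by linarith
  have h2i : ∀ i ∈ Icc i0 (JJ B X), 2 ^ (i + 1) ≤ X := by
    intro i hi
    rw [mem_Icc] at hi
    have h3 : (i : ℝ) ≤ (2 * B) * l := le_trans (by exact_mod_cast hi.2) hI
    have h4 : (2 : ℝ) ^ i ≤ L ^ (2 * B) := by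
      calc (2 : ℝ) ^ i ≤ Real.exp 1 ^ i := by
            gcongr
            have := Real.add_one_le_exp (1 : ℝ)
            linarith
        _ = Real.exp i := by rw [← Real.exp_nat_mul]; congr 1; ring
        _ ≤ Real.exp ((2 * B) * l) := Real.exp_le_exp.2 h3
        _ = L ^ (2 * B) := by
            have e1 : (2 * (B : ℝ)) * l = ((2 * B : ℕ) : ℝ) * l := by push_cast; ring
            rw [e1, Real.exp_nat_mul, hl, Real.exp_log (by linarith)]
    have h5 : (2 : ℝ) ^ (i + 1) ≤ X := by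
      rw [pow_succ]; linarith
    exact_mod_cast h5
  have hsum : ((badS ε B i0 X).card : ℝ) ≤ ∑ i ∈ Icc i0 (JJ B X), C * X * ((i : ℝ) / L) ^ (A + 3) := by
    have h3 : ((badS ε B i0 X).card : ℝ) ≤ ∑ i ∈ Icc i0 (JJ B X), ((badI ε i X).card : ℝ) := by
      have : (badS ε B i0 X).card ≤ ∑ i ∈ Icc i0 (JJ B X), (badI ε i X).card := card_biUnion_le
      exact_mod_cast this
    refine h3.trans (sum_le_sum fun i hi => ?_)
    rw [hL]
    exact h i X (mem_Icc.1 hi).1 hX (h2i i hi)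
  have hterm : ∀ i ∈ Icc i0 (JJ B X), C * X * ((i : ℝ) / L) ^ (A + 3) ≤
      C * X * (((2 * B + 1) * l) / L) ^ (A + 3) := by
    intro i hi
    have h3 : (i : ℝ) ≤ JJ B X := by exact_mod_cast (mem_Icc.1 hi).2
    gcongr
    exact h3.trans hI1
  have hcard : ((Icc i0 (JJ B X)).card : ℝ) ≤ (2 * B + 1) * l := by
    refine le_trans ?_ hI2
    rw [Nat.card_Icc]
    have : JJ B X + 1 - i0 ≤ JJ B X + 1 := Nat.sub_le _ _
    have h4 : ((JJ B X + 1 - i0 : ℕ) : ℝ) ≤ ((JJ B X + 1 : ℕ) : ℝ) := by exact_mod_cast this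
    push_cast at h4
    exact h4
  have hl0 : 0 ≤ l := by linarith
  have hL0 : 0 < L := by linarith
  calc ((badS ε B i0 X).card : ℝ) ≤ ∑ i ∈ Icc i0 (JJ B X), C * X * ((i : ℝ) / L) ^ (A + 3) := hsum
    _ ≤ ∑ _i ∈ Icc i0 (JJ B X), C * X * (((2 * B + 1) * l) / L) ^ (A + 3) := sum_le_sum hterm
    _ = ((Icc i0 (JJ B X)).card : ℝ) * (C * X * (((2 * B + 1) * l) / L) ^ (A + 3)) := by
        rw [sum_const, nsmul_eq_mul]
    _ ≤ ((2 * B + 1) * l) * (C * X * (((2 * B + 1) * l) / L) ^ (A + 3)) := by gcongr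
    _ = (C * (2 * B + 1) ^ (A + 4) * l ^ (A + 4)) * X / L ^ (A + 3) := by
        rw [div_pow, mul_pow]
        ring
    _ ≤ L * X / L ^ (A + 3) := by gcongr
    _ = X / L ^ (A + 2) := by
        rw [pow_succ L (A + 2)]
        field_simp
    _ ≤ X / L ^ A := by
        apply div_le_div_of_nonneg_left (by linarith) (by positivity)
        exact pow_le_pow_right₀ hL1 (by omega)

/-- the meaning of the exceptional set -/
theorem badS_spec {ε : ℝ} (hε : 0 < ε) {B i0 X n : ℕ} (hn1 : 1 ≤ n) (hnX : n ≤ X)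
    (hL2 : 1 ≤ Real.log (Real.log X)) (hn : n ∉ badS ε B i0 X) {y : ℝ}
    (hy : (2 : ℝ) ^ i0 ≤ y) (hy2 : y ≤ (Real.log X) ^ B) :
    (pcn n (⌊(n : ℝ) + y⌋₊ + 1) : ℝ) ≤ ε * Nat.primeCounting ⌊y⌋₊ := by
  have hL1 : 1 < Real.log X := by
    by_contra hc
    rw [not_lt] at hc
    have h0 : 0 ≤ Real.log X := Real.log_natCast_nonneg X
    have := Real.log_nonpos h0 hc
    linarith
  have hy1 : 1 ≤ y := le_trans (one_le_pow₀ (by norm_num)) hy
  obtain ⟨m, hm⟩ : ∃ m : ℕ, m = ⌊y⌋₊ := ⟨_, rfl⟩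
  have hm1 : 1 ≤ m := by rw [hm]; exact Nat.one_le_floor_iff _ |>.2 hy1
  obtain ⟨i, hi⟩ : ∃ i : ℕ, i = Nat.log 2 m := ⟨_, rfl⟩
  have h1 : 2 ^ i ≤ m := by rw [hi]; exact Nat.pow_log_le_self 2 (by omega)
  have h2 : m < 2 ^ (i + 1) := by rw [hi]; exact Nat.lt_pow_succ_log_self (by norm_num) m
  have hmy : (m : ℝ) ≤ y := by rw [hm]; exact Nat.floor_le (by linarith)
  have h3 : i0 ≤ i := by
    rw [hi]
    apply Nat.le_log_of_pow_le (by norm_num)
    rw [hm]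
    apply Nat.le_floor
    push_cast
    exact hy
  have h4 : i ≤ JJ B X := by
    unfold JJ
    apply Nat.le_floor
    have h5 : (2 : ℝ) ^ i ≤ (Real.log X) ^ B := by
      have : ((2 ^ i : ℕ) : ℝ) ≤ m := by exact_mod_cast h1
      push_cast at this
      linarith
    have h6 := Real.log_le_log (by positivity) h5
    rw [Real.log_pow, Real.log_pow] at h6
    have h7 : (1 / 2 : ℝ) ≤ Real.log 2 := by
      have := Real.log_two_gt_d9
      linarith
    have h8 : (i : ℝ) * (1 / 2) ≤ i * Real.log 2 :=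
      mul_le_mul_of_nonneg_left h7 (Nat.cast_nonneg i)
    linarith
  have h5 : n ∉ badI ε i X := by
    intro hc
    apply hn
    unfold badS
    rw [mem_biUnion]
    exact ⟨i, mem_Icc.2 ⟨h3, h4⟩, hc⟩
  have h6 : (pcn n (n + 2 ^ (i + 1)) : ℝ) ≤ ε * Nat.primeCounting (2 ^ i) := by
    by_contra hc
    rw [not_le] at hc
    apply h5
    unfold badI
    rw [mem_filter, mem_Icc]
    exact ⟨⟨hn1, hnX⟩, hc⟩
  have h7 : ⌊(n : ℝ) + y⌋₊ + 1 ≤ n + 2 ^ (i + 1) := by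
    have e : (n : ℝ) + y = y + (n : ℕ) := by ring
    rw [e, Nat.floor_add_natCast (by linarith), ← hm]
    omega
  have h8 : (pcn n (⌊(n : ℝ) + y⌋₊ + 1) : ℝ) ≤ pcn n (n + 2 ^ (i + 1)) := by
    exact_mod_cast pcn_mono h7
  have h9 : (Nat.primeCounting (2 ^ i) : ℝ) ≤ Nat.primeCounting ⌊y⌋₊ := by
    rw [← hm]
    exact_mod_cast Nat.monotone_primeCounting h1
  calc (pcn n (⌊(n : ℝ) + y⌋₊ + 1) : ℝ) ≤ _ := h8
    _ ≤ _ := h6
    _ ≤ _ := mul_le_mul_of_nonneg_left h9 hε.le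

end Pool.Agent.U762.SH
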