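import Pool.Agent.H646.Tuples
import Pool.Agent.R516.Stm

/-! Many primes in a short interval: the sieve for tuples of primes. -/

set_option autoImplicit false

namespace Pool.Agent.U762.SH

open Finset
open Pool.Agent.R516 (pcn)
open Pool.Agent.H646.TuplesM (tuple_count)

/-- the primes in `(n, n + y]` -/
def prs (n y : ℕ) : Finset ℕ := (Ioc n (n + y)).filter Nat.Prime

lemma prs_card (n y : ℕ) : (prs n y).card = pcn n (n + y) := rfl

/-- the code of a set of primes -/
noncomputable def cod (k : ℕ) (p : (_ : ℕ) × Finset ℕ) : ℕ × (ℕ × (Fin (k + 3) → ℕ)) :=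
  if h : p.2.card = k + 3 then
    (p.2.orderEmbOfFin h 0 - p.1, (p.2.orderEmbOfFin h 0,
      fun j => p.2.orderEmbOfFin h j - p.2.orderEmbOfFin h 0))
  else (0, (0, fun _ => 0))

theorem tupN (k : ℕ) : ∃ C : ℝ, 0 < C ∧ ∃ x₀ : ℕ, ∀ x : ℕ, x₀ ≤ x → ∀ y : ℕ, 1 ≤ y → y ≤ x →
    ∀ N : ℕ, (((Icc 1 x).filter (fun n => N ≤ pcn n (n + y))).card : ℝ) * (N.choose (k + 3) : ℝ) ≤
      C * x * (y : ℝ) ^ (k + 3) / (Real.log x) ^ (k + 3) := by
  classical
  obtain ⟨C, hC, x₀, h⟩ := tuple_count k
  refine ⟨2 * C, by positivity, max x₀ 2, fun x hx y hy hyx N => ?_⟩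
  have hx0 : x₀ ≤ 2 * x := by have := le_max_left x₀ 2; omega
  have hx2 : 2 ≤ x := (le_max_right x₀ 2).trans hx
  have hW := h (2 * x) hx0 y y hy le_rfl (fun _ _ => 0)
  obtain ⟨W, hWd⟩ : ∃ W : Finset (ℕ × (Fin (k + 3) → ℕ)), W = (Icc 1 (2 * x) ×ˢ
      Fintype.piFinset (fun _ : Fin (k + 3) => Icc 0 y)).filter (fun w =>
        StrictMono w.2 ∧ w.2 0 = 0 ∧
        (∀ j : Fin (k + 3), 2 ≤ (j : ℕ) → (0 : ℤ) ≤ w.2 j ∧ (w.2 j : ℤ) < 0 + y) ∧
          ∀ j, (w.1 + w.2 j).Prime) := ⟨_, rfl⟩
  have hW' : (W.card : ℝ) ≤ C * (2 * x : ℕ) / (Real.log (2 * x : ℕ)) ^ (k + 3) * (y : ℝ) ^ 2 *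
      (y : ℝ) ^ k := by
    rw [hWd]; exact hW
  obtain ⟨S, hS⟩ : ∃ S : Finset ℕ, S = (Icc 1 x).filter (fun n => N ≤ pcn n (n + y)) := ⟨_, rfl⟩
  rw [← hS]
  obtain ⟨T, hT⟩ : ∃ T : Finset ((_ : ℕ) × Finset ℕ),
      T = S.sigma (fun n => powersetCard (k + 3) (prs n y)) := ⟨_, rfl⟩
  have h1 : S.card * N.choose (k + 3) ≤ T.card := by
    rw [hT, card_sigma]
    calc S.card * N.choose (k + 3) = ∑ _n ∈ S, N.choose (k + 3) := by
          rw [sum_const, smul_eq_mul]
      _ ≤ ∑ n ∈ S, (powersetCard (k + 3) (prs n y)).card := by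
          apply sum_le_sum
          intro n hn
          rw [card_powersetCard, prs_card]
          apply Nat.choose_le_choose
          rw [hS, mem_filter] at hn
          exact hn.2
  have h2 : T.card ≤ (Icc 1 y ×ˢ W).card := by
    apply card_le_card_of_injOn (cod k)
    · rintro ⟨n, s⟩ hp
      rw [mem_coe, hT, mem_sigma] at hp
      obtain ⟨hn, hs⟩ := hp
      rw [mem_powersetCard] at hs
      obtain ⟨hs1, hs2⟩ := hs
      simp only at hs1 hs2
      have hmem : ∀ j, n < s.orderEmbOfFin hs2 j ∧ s.orderEmbOfFin hs2 j ≤ n + y ∧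
          (s.orderEmbOfFin hs2 j).Prime := by
        intro j
        have h3 := hs1 (s.orderEmbOfFin_mem hs2 j)
        unfold prs at h3
        rw [mem_filter, mem_Ioc] at h3
        exact ⟨h3.1.1, h3.1.2, h3.2⟩
      have hmon : ∀ j, s.orderEmbOfFin hs2 0 ≤ s.orderEmbOfFin hs2 j := by
        intro j
        exact (s.orderEmbOfFin hs2).monotone (Fin.zero_le j)
      rw [mem_coe]
      unfold cod
      rw [dif_pos hs2]
      rw [hS, mem_filter, mem_Icc] at hn
      simp only at hn
      have h0 := hmem 0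
      rw [mem_product, mem_Icc]
      refine ⟨⟨?_, ?_⟩, ?_⟩
      · simp only; omega
      · simp only; omega
      rw [hWd, mem_filter, mem_product, mem_Icc, Fintype.mem_piFinset]
      refine ⟨⟨⟨?_, ?_⟩, fun j => ?_⟩, ?_, ?_, ?_, ?_⟩
      · simp only; omega
      · simp only; omega
      · rw [mem_Icc]
        have := hmem j
        have := hmon j
        simp only; omega
      · intro i j hij
        have h3 : s.orderEmbOfFin hs2 i < s.orderEmbOfFin hs2 j :=
          (s.orderEmbOfFin hs2).strictMono hij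
        have := hmon i
        have := hmon j
        simp only; omega
      · simp
      · intro j _
        have := hmem j
        have := hmon j
        simp only
        constructor
        · positivity
        · have h4 : s.orderEmbOfFin hs2 j - s.orderEmbOfFin hs2 0 < y := by omega
          have h5 : ((s.orderEmbOfFin hs2 j - s.orderEmbOfFin hs2 0 : ℕ) : ℤ) < (y : ℤ) := by
            exact_mod_cast h4
          linarith
      · intro j
        have h3 := (hmem j).2.2
        have := hmon j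
        simp only
        have h4 : s.orderEmbOfFin hs2 0 + (s.orderEmbOfFin hs2 j - s.orderEmbOfFin hs2 0) =
          s.orderEmbOfFin hs2 j := by omega
        rw [h4]
        exact h3
    · rintro ⟨n, s⟩ hp ⟨n', s'⟩ hp' heq
      rw [mem_coe, hT, mem_sigma] at hp hp'
      obtain ⟨hn, hs⟩ := hp
      obtain ⟨hn', hs'⟩ := hp'
      rw [mem_powersetCard] at hs hs'
      obtain ⟨hs1, hs2⟩ := hs
      obtain ⟨hs1', hs2'⟩ := hs'
      simp only at hs1 hs2 hs1' hs2'
      unfold cod at heq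
      rw [dif_pos hs2, dif_pos hs2'] at heq
      rw [Prod.mk.injEq, Prod.mk.injEq] at heq
      obtain ⟨e1, e2, e3⟩ := heq
      simp only at e1 e2 e3
      have a1 : n < s.orderEmbOfFin hs2 0 := by
        have h3 := hs1 (s.orderEmbOfFin_mem hs2 0)
        unfold prs at h3
        rw [mem_filter, mem_Ioc] at h3
        exact h3.1.1
      have a2 : n' < s'.orderEmbOfFin hs2' 0 := by
        have h3 := hs1' (s'.orderEmbOfFin_mem hs2' 0)
        unfold prs at h3
        rw [mem_filter, mem_Ioc] at h3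
        exact h3.1.1
      have e4 : n = n' := by omega
      have e5 : ∀ j, s.orderEmbOfFin hs2 j = s'.orderEmbOfFin hs2' j := by
        intro j
        have h3 := congrFun e3 j
        have h4 : s.orderEmbOfFin hs2 0 ≤ s.orderEmbOfFin hs2 j :=
          (s.orderEmbOfFin hs2).monotone (Fin.zero_le j)
        have h5 : s'.orderEmbOfFin hs2' 0 ≤ s'.orderEmbOfFin hs2' j :=
          (s'.orderEmbOfFin hs2').monotone (Fin.zero_le j)
        omega
      have e6 : s = s' := by
        have h3 := s.range_orderEmbOfFin hs2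
        have h4 := s'.range_orderEmbOfFin hs2'
        have h5 : (⇑(s.orderEmbOfFin hs2) : Fin (k + 3) → ℕ) = ⇑(s'.orderEmbOfFin hs2') := funext e5
        rw [h5, h4] at h3
        exact (coe_injective h3).symm
      subst e4
      subst e6
      rfl
  have h3 : (S.card : ℝ) * (N.choose (k + 3) : ℝ) ≤ y * W.card := by
    have h4 : S.card * N.choose (k + 3) ≤ y * W.card := by
      refine h1.trans (h2.trans (le_of_eq ?_))
      rw [card_product, Nat.card_Icc, Nat.add_sub_cancel]
    exact_mod_cast h4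
  have hlx : 0 < Real.log x := Real.log_pos (by exact_mod_cast (by omega : 1 < x))
  have hlx2 : Real.log x ≤ Real.log (2 * x : ℕ) := by
    apply Real.log_le_log (by exact_mod_cast (by omega : 0 < x))
    push_cast
    have : (0 : ℝ) ≤ x := Nat.cast_nonneg x
    linarith
  calc (S.card : ℝ) * (N.choose (k + 3) : ℝ) ≤ y * W.card := h3
    _ ≤ y * (C * (2 * x : ℕ) / (Real.log (2 * x : ℕ)) ^ (k + 3) * (y : ℝ) ^ 2 * (y : ℝ) ^ k) := by
        gcongr
    _ = (C * (2 * x : ℕ)) * (y : ℝ) ^ (k + 3) / (Real.log (2 * x : ℕ)) ^ (k + 3) := by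
        rw [pow_add (y : ℝ) k 3]; ring
    _ ≤ (C * (2 * x : ℕ)) * (y : ℝ) ^ (k + 3) / (Real.log x) ^ (k + 3) := by
        gcongr
    _ = 2 * C * x * (y : ℝ) ^ (k + 3) / (Real.log x) ^ (k + 3) := by push_cast; ring

end Pool.Agent.U762.SH
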